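import Pool.Agent.GSH.Lin

/-!
# GSH: the two moves

`N = L ⊕ U`, `L = K(√d)`, `U` an `L`-space of dimension 3 (`S` = multiplication by `√d`), is an
8-dimensional `K`-space, with coordinates `Fin 2 ⊕ Fin 6`. The torus `L^*` acts on `N` by
`(ξ, u) ↦ (μ ^ 3 ξ, N(μ) μ u)` (`tor`).

`K ⊂ Ω` fields, `N₁`, `N₂` two such spaces, `J : N₁ → N₂` a `K`-linear isomorphism. For a point
`w = (ξ, u)` of `N₁` over `Ω` (`ξ ≠ 0`, `u` in general position) `exists_y` produces a functional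
`y` over `K` on `N₂`, which kills `L₂` and `J L₁`, such that for the point `w'` of the torus orbit
of `w` with `y(J w') = 0` the number `y(S₂ J w')` is not zero.

`two`: then `w` is determined over `K` by the class modulo `L₂^*` of the component in `U₂` of
`J w'`.
-/

set_option autoImplicit false

noncomputable section

namespace Pool.Agent.GSH

open Matrix

variable {K Ω : Type} [Field K] [Field Ω] [Algebra K Ω]

/-- the index set of the coordinates of `N` -/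
abbrev I8 : Type := Fin 2 ⊕ Fin 6

/-- the component in `U` -/
def pU (w : I8 → Ω) : Fin 6 → Ω := fun i => w (Sum.inr i)

/-- the component in `L` -/
def pL (w : I8 → Ω) : Fin 2 → Ω := fun i => w (Sum.inl i)

/-- multiplication by `√d` on `L` -/
def rt (d : K) : Matrix (Fin 2) (Fin 2) K := !![0, d; 1, 0]

/-- `(α + β √d) u` -/
def sm (S : Matrix (Fin 6) (Fin 6) K) (α β : Ω) (u : Fin 6 → Ω) : Fin 6 → Ω :=
  α • u + β • (mK S *ᵥ u)

/-- the action of the torus: `(ξ, u) ↦ (μ ^ 3 ξ, N(μ) μ u)` for `μ = α + β √d` -/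
def tor (d : K) (S : Matrix (Fin 6) (Fin 6) K) (α β : Ω) (w : I8 → Ω) : I8 → Ω :=
  Sum.elim ((α ^ 3 + 3 * algebraMap K Ω d * α * β ^ 2) • pL w +
      (3 * α ^ 2 * β + algebraMap K Ω d * β ^ 3) • (mK (rt d) *ᵥ pL w))
    ((α ^ 2 - algebraMap K Ω d * β ^ 2) • sm S α β (pU w))

/-- `d` is not a square in `Ω` -/
def NSq (Ω : Type) [Field Ω] [Algebra K Ω] (d : K) : Prop := ∀ f : Ω, f ^ 2 ≠ algebraMap K Ω d

theorem NSq.norm {d : K} (h : NSq Ω d) {α β : Ω} (hab : α ≠ 0 ∨ β ≠ 0) :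
    α ^ 2 - algebraMap K Ω d * β ^ 2 ≠ 0 := by
  intro h1
  by_cases hb : β = 0
  · rw [hb] at h1
    have h2 : α ^ 2 = 0 := by linear_combination h1
    rcases hab with h3 | h3
    · exact h3 (pow_eq_zero_iff two_ne_zero |>.1 h2)
    · exact h3 hb
  · apply h (α / β)
    field_simp
    linear_combination h1

theorem NSq.ne {d : K} (h : NSq Ω d) : algebraMap K Ω d ≠ 0 := by
  intro h1
  exact h 0 (by rw [h1]; ring)

/-- two equations -/
theorem NSq.two_zero {d : K} (h : NSq Ω d) {α β p q : Ω} (hab : α ≠ 0 ∨ β ≠ 0)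
    (h1 : α * p + β * q = 0) (h2 : α * q + β * (algebraMap K Ω d * p) = 0) : p = 0 ∧ q = 0 := by
  have hn := h.norm hab
  constructor
  · have h3 : (α ^ 2 - algebraMap K Ω d * β ^ 2) * p = 0 := by
      linear_combination α * h1 - β * h2
    exact (mul_eq_zero.1 h3).resolve_left hn
  · have h3 : (α ^ 2 - algebraMap K Ω d * β ^ 2) * q = 0 := by
      linear_combination α * h2 - β * algebraMap K Ω d * h1
    exact (mul_eq_zero.1 h3).resolve_left hn

theorem mK_mul {m n p : Type} [Fintype n] [Fintype p] (M : Matrix m n K) (N : Matrix n p K)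
    (u : p → Ω) : mK M *ᵥ (mK N *ᵥ u) = mK (M * N) *ᵥ u := by
  rw [mulVec_mulVec]
  exact congrArg (· *ᵥ u) (Matrix.map_mul (f := algebraMap K Ω)).symm

theorem mK_sq {S : Matrix (Fin 6) (Fin 6) K} {d : K} (hS : S * S = d • 1) (u : Fin 6 → Ω) :
    mK S *ᵥ (mK S *ᵥ u) = algebraMap K Ω d • u := by
  rw [mK_mul, hS]
  funext i
  simp only [mulVec, dotProduct, mK, Matrix.map_apply, Matrix.smul_apply, Pi.smul_apply,
    smul_eq_mul, map_mul, Matrix.one_apply]
  rw [Finset.sum_eq_single i]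
  · simp
  · intro j _ hj
    simp [Ne.symm hj]
  · simp

theorem sm_sm {S : Matrix (Fin 6) (Fin 6) K} {d : K} (hS : S * S = d • 1) (α β α' β' : Ω)
    (u : Fin 6 → Ω) : sm S α β (sm S α' β' u) =
      sm S (α * α' + algebraMap K Ω d * (β * β')) (α * β' + β * α') u := by
  unfold sm
  rw [mulVec_add, mulVec_smul, mulVec_smul, mK_sq hS]
  funext i
  simp only [Pi.add_apply, Pi.smul_apply, smul_eq_mul]
  ring

theorem vK_dot_mK {n : Type} [Fintype n] (f : n → K) (S : Matrix n n K) (u : n → Ω) :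
    vK f ⬝ᵥ (mK S *ᵥ u) = vK (f ᵥ* S) ⬝ᵥ u := by
  rw [dotProduct_mulVec]
  congr 1
  funext i
  simp only [vecMul, dotProduct, vK, mK, Matrix.map_apply, map_sum, map_mul]

theorem vK_dot {n : Type} [Fintype n] (f g : n → K) :
    (vK f : n → Ω) ⬝ᵥ vK g = algebraMap K Ω (f ⬝ᵥ g) := by
  simp only [dotProduct, vK, map_sum, map_mul]

theorem mK_vK {m n : Type} [Fintype n] (M : Matrix m n K) (x : n → K) :
    (mK M *ᵥ vK x : m → Ω) = vK (M *ᵥ x) := by
  funext i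
  simp only [mulVec, dotProduct, vK, mK, Matrix.map_apply, map_sum, map_mul]

/-- functionals in general position -/
def ND (S : Matrix (Fin 6) (Fin 6) K) (u : Fin 6 → Ω) : Prop :=
  ∀ f : Fin 6 → K, vK f ⬝ᵥ u = 0 → vK f ⬝ᵥ (mK S *ᵥ u) = 0 → f = 0

theorem ND.sm_ne {S : Matrix (Fin 6) (Fin 6) K} {d : K} (hS : S * S = d • 1) (hd : NSq Ω d)
    {u : Fin 6 → Ω} (h : ND S u) {α β : Ω} (hab : α ≠ 0 ∨ β ≠ 0) {f : Fin 6 → K} (hf : f ≠ 0)
    (h1 : vK f ⬝ᵥ sm S α β u = 0) (h2 : vK f ⬝ᵥ (mK S *ᵥ sm S α β u) = 0) : False := by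
  apply hf
  have h3 : α * (vK f ⬝ᵥ u) + β * (vK f ⬝ᵥ (mK S *ᵥ u)) = 0 := by
    rw [← h1]
    unfold sm
    rw [dotProduct_add, dotProduct_smul, dotProduct_smul, smul_eq_mul, smul_eq_mul]
  have h4 : α * (vK f ⬝ᵥ (mK S *ᵥ u)) + β * (algebraMap K Ω d * (vK f ⬝ᵥ u)) = 0 := by
    rw [← h2]
    unfold sm
    rw [mulVec_add, mulVec_smul, mulVec_smul, mK_sq hS, dotProduct_add, dotProduct_smul,
      dotProduct_smul, dotProduct_smul, smul_eq_mul, smul_eq_mul, smul_eq_mul]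
  obtain ⟨h5, h6⟩ := hd.two_zero hab h3 h4
  exact h f h5 h6

/-! ### The functionals `y` -/

section Yfun

variable (J : Matrix I8 I8 K)

/-- the component in `U₂` of `J (e_j, 0)` -/
def mJ (j : Fin 2) : Fin 6 → K := fun i => J (Sum.inr i) (Sum.inl j)

/-- the component in `U₂` of `J w` -/
def pJ (w : I8 → Ω) : Fin 6 → Ω := pU (mK J *ᵥ w)

theorem pJ_add (w w' : I8 → Ω) : pJ J (w + w') = pJ J w + pJ J w' := by
  unfold pJ
  rw [mulVec_add]
  rfl

theorem pJ_smul (c : Ω) (w : I8 → Ω) : pJ J (c • w) = c • pJ J w := by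
  unfold pJ
  rw [mulVec_smul]
  rfl

theorem pJ_inl (a : Fin 2 → Ω) : pJ J (Sum.elim a 0) = ∑ j, a j • vK (mJ J j) := by
  funext i
  simp only [pJ, pU, mulVec, dotProduct, Fintype.sum_sum_type, Sum.elim_inl, Sum.elim_inr,
    Pi.zero_apply, mul_zero, Finset.sum_const_zero, add_zero, mK, Matrix.map_apply,
    Finset.sum_apply, Pi.smul_apply, vK, mJ, smul_eq_mul]
  exact Finset.sum_congr rfl fun j _ => mul_comm _ _

variable {J}

/-- (*): for `y` in general position `y` does not kill `J (0, μ u)`. -/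
theorem exists_ne (hJ : IsUnit J.det) {S : Matrix (Fin 6) (Fin 6) K} {d : K} (hS : S * S = d • 1)
    (hd : NSq Ω d) {u : Fin 6 → Ω} (h : ND S u) {α β : Ω} (hab : α ≠ 0 ∨ β ≠ 0) :
    ∃ y : Fin 6 → Ω, (∀ j, y ⬝ᵥ vK (mJ J j) = 0) ∧ y ⬝ᵥ pJ J (Sum.elim 0 (sm S α β u)) ≠ 0 := by
  by_contra hcon
  push Not at hcon
  obtain ⟨l, hl⟩ := mem_span2 hcon
  have h1 : pJ J (Sum.elim (-l) (sm S α β u)) = 0 := by
    have h2 : (Sum.elim (-l) (sm S α β u) : I8 → Ω) =
        Sum.elim (-l) (0 : Fin 6 → Ω) + Sum.elim (0 : Fin 2 → Ω) (sm S α β u) := by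
      funext i
      rcases i with i | i <;> simp
    rw [h2, pJ_add, pJ_inl, hl]
    simp
  set n : I8 → Ω := mK J *ᵥ Sum.elim (-l) (sm S α β u) with hn
  have h3 : mK J⁻¹ *ᵥ n = Sum.elim (-l) (sm S α β u) := by
    rw [hn, mK_mul, nonsing_inv_mul _ hJ]
    have h4 : (mK (1 : Matrix I8 I8 K) : Matrix I8 I8 Ω) = 1 :=
      Matrix.map_one _ (map_zero _) (map_one _)
    rw [h4, one_mulVec]
  have h4 : n = Sum.elim (pL n) 0 := by
    funext i
    rcases i with i | i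
    · rfl
    · exact congrFun h1 i
  have h5 : sm S α β u = ∑ j, pL n j • vK (mJ J⁻¹ j) := by
    rw [← pJ_inl, ← h4]
    unfold pJ
    rw [h3]
    rfl
  obtain ⟨f, hf, hf1, hf2⟩ := exists_fun (mJ J⁻¹) S
  refine h.sm_ne hS hd hab hf ?_ ?_
  · rw [h5, dotProduct_sum]
    refine Finset.sum_eq_zero fun j _ => ?_
    rw [dotProduct_smul, vK_dot, hf1, map_zero, smul_zero]
  · rw [h5, mulVec_sum, dotProduct_sum]
    refine Finset.sum_eq_zero fun j _ => ?_
    rw [mulVec_smul, dotProduct_smul, mK_vK, vK_dot, hf2, map_zero, smul_zero]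

end Yfun

end Pool.Agent.GSH
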