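import Mathlib

/-!
# GSH: linear algebra over a field extension `Ω` of `K`

`vK x`: a vector over `K` as a vector over `Ω`. `mK M`: a matrix over `K` as a matrix over `Ω`.

* `mem_span2`: a vector which is killed by all functionals that kill `m j` is a combination of
  the `m j`.
* `kernel_comb`: a solution over `Ω` of linear equations over `K` is a combination of solutions
  over `K`.
* `poly_zero`: a polynomial which vanishes at all solutions over `K` vanishes at all solutions
  over `Ω` (`K` infinite).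
* `exists_fun`: a functional over `K` which kills two vectors and their images under a matrix.
-/

set_option autoImplicit false

noncomputable section

namespace Pool.Agent.GSH

open Matrix

variable {K Ω : Type} [Field K] [Field Ω] [Algebra K Ω]

/-- a vector over `K` as a vector over `Ω` -/
def vK {n : Type} (x : n → K) : n → Ω := fun i => algebraMap K Ω (x i)

/-- a matrix over `K` as a matrix over `Ω` -/
def mK {m n : Type} (M : Matrix m n K) : Matrix m n Ω := M.map (algebraMap K Ω)

omit [Algebra K Ω] [Field K] in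
theorem mem_span2 {m : Fin 2 → Fin 6 → Ω} {v : Fin 6 → Ω}
    (h : ∀ y : Fin 6 → Ω, (∀ j, y ⬝ᵥ m j = 0) → y ⬝ᵥ v = 0) :
    ∃ l : Fin 2 → Ω, v = ∑ j, l j • m j := by
  set L : (Fin 6 → Ω) → ((Fin 6 → Ω) →ₗ[Ω] Ω) := fun v => ∑ i, v i • LinearMap.proj i with hL
  have hLy : ∀ v y, L v y = y ⬝ᵥ v := by
    intro v y
    rw [hL]
    simp only [LinearMap.sum_apply, LinearMap.smul_apply, LinearMap.proj_apply, smul_eq_mul,
      dotProduct]
    exact Finset.sum_congr rfl fun i _ => mul_comm _ _
  have h1 : L v ∈ Submodule.span Ω (Set.range fun j => L (m j)) := by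
    apply mem_span_of_iInf_ker_le_ker
    intro y hy
    rw [Submodule.mem_iInf] at hy
    rw [LinearMap.mem_ker, hLy]
    exact h y fun j => by rw [← hLy]; exact hy j
  obtain ⟨l, hl⟩ := (Submodule.mem_span_range_iff_exists_fun Ω).1 h1
  refine ⟨l, funext fun i => ?_⟩
  have h2 := LinearMap.congr_fun hl (Pi.single i 1)
  rw [hLy, single_one_dotProduct] at h2
  rw [← h2]
  simp only [LinearMap.sum_apply, LinearMap.smul_apply, hLy, single_one_dotProduct,
    Finset.sum_apply, Pi.smul_apply]

theorem kernel_comb {n : Type} [Fintype n] {m : Fin 2 → n → K} {y : n → Ω}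
    (hy : ∀ j, y ⬝ᵥ vK (m j) = 0) : ∃ (I : Type) (_ : Fintype I) (z : I → n → K) (c : I → Ω),
      (∀ i j, z i ⬝ᵥ m j = 0) ∧ y = ∑ i, c i • vK (z i) := by
  classical
  set b := Module.Basis.ofVectorSpace K Ω with hb
  set s : Finset (Module.Basis.ofVectorSpaceIndex K Ω) :=
    Finset.univ.biUnion fun i => (b.repr (y i)).support with hs
  refine ⟨s, inferInstance, fun k i => b.repr (y i) k, fun k => b k, fun k j => ?_, ?_⟩
  · have h1 : b.repr (y ⬝ᵥ vK (m j)) (k : Module.Basis.ofVectorSpaceIndex K Ω) = 0 := by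
      rw [hy, map_zero, Finsupp.zero_apply]
    rw [← h1]
    simp only [dotProduct, vK]
    rw [map_sum, Finsupp.finsetSum_apply]
    refine Finset.sum_congr rfl fun i _ => ?_
    rw [mul_comm (y i), ← Algebra.smul_def, map_smul, Finsupp.smul_apply, smul_eq_mul, mul_comm]
  · funext i
    have h1 := b.linearCombination_repr (y i)
    rw [Finsupp.linearCombination_apply, Finsupp.sum] at h1
    have h2 : ∑ k ∈ (b.repr (y i)).support, b.repr (y i) k • b k =
        ∑ k ∈ s, b.repr (y i) k • b k := by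
      refine Finset.sum_subset (fun k hk => ?_) fun k _ hk => ?_
      · rw [hs, Finset.mem_biUnion]
        exact ⟨i, Finset.mem_univ _, hk⟩
      · rw [Finsupp.notMem_support_iff.1 hk, zero_smul]
    rw [← h1, h2, Finset.sum_apply, ← Finset.sum_coe_sort]
    refine Finset.sum_congr rfl fun k _ => ?_
    rw [Pi.smul_apply, vK, smul_eq_mul, mul_comm, ← Algebra.smul_def]

theorem poly_zero [Infinite K] {n : Type} [Fintype n] {m : Fin 2 → n → K}
    {P : MvPolynomial n Ω}
    (h : ∀ z : n → K, (∀ j, z ⬝ᵥ m j = 0) → MvPolynomial.eval (vK z) P = 0) {y : n → Ω}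
    (hy : ∀ j, y ⬝ᵥ vK (m j) = 0) : MvPolynomial.eval y P = 0 := by
  obtain ⟨I, _, z, c, hz, rfl⟩ := kernel_comb hy
  set Q : MvPolynomial I Ω := MvPolynomial.bind₁ (fun i => ∑ k, MvPolynomial.C (vK (z k) i) *
    MvPolynomial.X k) P with hQ
  have h1 : ∀ x : I → Ω, MvPolynomial.eval x Q = MvPolynomial.eval (∑ k, x k • vK (z k)) P := by
    intro x
    rw [hQ, ← MvPolynomial.aeval_eq_eval, ← MvPolynomial.aeval_eq_eval,
      MvPolynomial.aeval_bind₁]
    congr 2
    funext i
    simp only [map_sum, map_mul, MvPolynomial.aeval_X, MvPolynomial.aeval_C, Finset.sum_apply,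
      Pi.smul_apply, smul_eq_mul, Algebra.algebraMap_self, RingHom.id_apply]
    exact Finset.sum_congr rfl fun k _ => mul_comm _ _
  have h2 : Q = 0 := by
    have hinf : ∀ _ : I, (Set.range (algebraMap K Ω)).Infinite := fun _ =>
      Set.infinite_range_of_injective (algebraMap K Ω).injective
    refine MvPolynomial.funext_set (fun _ => Set.range (algebraMap K Ω)) hinf fun x hx => ?_
    rw [map_zero, h1]
    choose t ht using fun k => hx k (Set.mem_univ _)
    have h3 : ∑ k, x k • vK (z k) = vK (K := K) (Ω := Ω) (∑ k, t k • z k) := by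
      funext i
      simp only [Finset.sum_apply, Pi.smul_apply, smul_eq_mul, vK, map_sum, map_mul, ← ht]
    rw [h3]
    refine h _ fun j => ?_
    rw [sum_dotProduct]
    exact Finset.sum_eq_zero fun k _ => by rw [smul_dotProduct, hz, smul_zero]
  rw [← h1, h2, map_zero]

omit [Field Ω] [Algebra K Ω] in
theorem exists_fun (m : Fin 2 → Fin 6 → K) (S : Matrix (Fin 6) (Fin 6) K) :
    ∃ f : Fin 6 → K, f ≠ 0 ∧ (∀ j, f ⬝ᵥ m j = 0) ∧ ∀ j, f ⬝ᵥ S *ᵥ m j = 0 := by
  set L : (Fin 6 → K) →ₗ[K] (Fin 2 ⊕ Fin 2 → K) := Matrix.mulVecLin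
    (Matrix.of (Sum.elim m fun j => S *ᵥ m j)) with hL
  have h1 : LinearMap.ker L ≠ ⊥ := by
    apply LinearMap.ker_ne_bot_of_finrank_lt
    simp
  obtain ⟨f, hf, hf0⟩ := Submodule.exists_mem_ne_zero_of_ne_bot h1
  rw [LinearMap.mem_ker] at hf
  refine ⟨f, hf0, fun j => ?_, fun j => ?_⟩
  · rw [dotProduct_comm]
    exact congrFun hf (Sum.inl j)
  · rw [dotProduct_comm]
    exact congrFun hf (Sum.inr j)

end Pool.Agent.GSH
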