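import Pool.Agent.GSH.TwoEnd

/-!
# GSH: hermitian pencils

`Pen K`: an element `d` of `K`, an endomorphism `S` of `K ^ 6` with `S ^ 2 = d`, two quadratic forms
`Q 0`, `Q 1` and a quadratic map `P : K ^ 6 → K ^ 6`, all given by symmetric matrices over `K`.
`IsPen`: with `L = K(√d)` the forms `Q j` are hermitian, that is `Q (a u) = N(a) Q(u)`, and
`P (a u) = conj(a) ^ 2 P(u)`, for `a` in `L`.

Example: `K ^ 6 = L ^ 3`, two hermitian matrices `B 0`, `B 1` over `L`, `Q j (u) = B j (u, conj u)`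
and `P u = (B 0 conj u) × (B 1 conj u)` (cross product).

`W`: the cone of all `(ξ, u)` with `Q 0 (u) = Q 1 (u) = 0` and `P u = conj(ξ) u`. The points with
`u ≠ 0` are the interesting ones: in the example they form the cone over a form of `(ℙ¹) ^ 3` in
`ℙ⁷` (without the two points with `u = 0` and `ξ conj(ξ) = 0`).
-/

set_option autoImplicit false

noncomputable section

namespace Pool.Agent.GSH

open Matrix

/-- Two quadratic forms and a quadratic map on `K ^ 6 = U`, an `L`-space of dimension 3. -/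
structure Pen (K : Type) [Field K] where
  /-- `L = K(√d)` -/
  d : K
  /-- multiplication by `√d` -/
  S : Matrix (Fin 6) (Fin 6) K
  /-- the quadratic forms -/
  Q : Fin 2 → Matrix (Fin 6) (Fin 6) K
  /-- the coordinates of the quadratic map -/
  P : Fin 6 → Matrix (Fin 6) (Fin 6) K

variable {K Ω : Type} [Field K] [Field Ω] [Algebra K Ω]

/-- the bilinear form with matrix `M` -/
def bl (M : Matrix (Fin 6) (Fin 6) K) (u v : Fin 6 → Ω) : Ω := u ⬝ᵥ (mK M *ᵥ v)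

/-- the compatibility with the structure of an `L`-space -/
structure Pen.IsPen (H : Pen K) : Prop where
  sq : H.S * H.S = H.d • 1
  symQ : ∀ j, (H.Q j)ᵀ = H.Q j
  herQ : ∀ j, H.S ᵀ * H.Q j + H.Q j * H.S = 0
  symP : ∀ i, (H.P i)ᵀ = H.P i
  herP : ∀ i, H.S ᵀ * H.P i + H.P i * H.S = ∑ j, (-2 * H.S i j) • H.P j

/-- the cone `W` over `Ω` -/
def Pen.W (H : Pen K) (Ω : Type) [Field Ω] [Algebra K Ω] : Set (I8 → Ω) :=
  {w | (∀ j, bl (H.Q j) (pU w) (pU w) = 0) ∧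
    ∀ i, bl (H.P i) (pU w) (pU w) = sm H.S (pL w 0) (-pL w 1) (pU w) i}

theorem bl_add_left (M : Matrix (Fin 6) (Fin 6) K) (u u' v : Fin 6 → Ω) :
    bl M (u + u') v = bl M u v + bl M u' v := by
  unfold bl
  rw [add_dotProduct]

theorem bl_add_right (M : Matrix (Fin 6) (Fin 6) K) (u v v' : Fin 6 → Ω) :
    bl M u (v + v') = bl M u v + bl M u v' := by
  unfold bl
  rw [mulVec_add, dotProduct_add]

theorem bl_smul_left (M : Matrix (Fin 6) (Fin 6) K) (c : Ω) (u v : Fin 6 → Ω) :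
    bl M (c • u) v = c * bl M u v := by
  unfold bl
  rw [smul_dotProduct, smul_eq_mul]

theorem bl_smul_right (M : Matrix (Fin 6) (Fin 6) K) (c : Ω) (u v : Fin 6 → Ω) :
    bl M u (c • v) = c * bl M u v := by
  unfold bl
  rw [mulVec_smul, dotProduct_smul, smul_eq_mul]

theorem bl_left (M S : Matrix (Fin 6) (Fin 6) K) (u v : Fin 6 → Ω) :
    bl M (mK S *ᵥ u) v = bl (Sᵀ * M) u v := by
  unfold bl
  rw [← mK_mul, dotProduct_mulVec u, ← mulVec_transpose]
  congr 1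

theorem bl_right (M S : Matrix (Fin 6) (Fin 6) K) (u v : Fin 6 → Ω) :
    bl M u (mK S *ᵥ v) = bl (M * S) u v := by
  unfold bl
  rw [mK_mul]

theorem bl_add_mat (M N : Matrix (Fin 6) (Fin 6) K) (u v : Fin 6 → Ω) :
    bl (M + N) u v = bl M u v + bl N u v := by
  unfold bl
  have h1 : (mK (M + N) : Matrix (Fin 6) (Fin 6) Ω) = mK M + mK N :=
    Matrix.map_add _ (map_add _) M N
  rw [h1, add_mulVec, dotProduct_add]

theorem bl_smul_mat (c : K) (M : Matrix (Fin 6) (Fin 6) K) (u v : Fin 6 → Ω) :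
    bl (c • M) u v = algebraMap K Ω c * bl M u v := by
  unfold bl
  have h1 : (mK (c • M) : Matrix (Fin 6) (Fin 6) Ω) = algebraMap K Ω c • mK M := by
    ext i j
    simp only [mK, Matrix.map_apply, Matrix.smul_apply, smul_eq_mul, map_mul]
  rw [h1, smul_mulVec, dotProduct_smul, smul_eq_mul]

theorem bl_zero_mat (u v : Fin 6 → Ω) : bl (0 : Matrix (Fin 6) (Fin 6) K) u v = 0 := by
  have h1 := bl_smul_mat (0 : K) (0 : Matrix (Fin 6) (Fin 6) K) u v
  rw [zero_smul, map_zero, zero_mul] at h1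
  exact h1

theorem bl_sum_mat {ι : Type} (s : Finset ι) (M : ι → Matrix (Fin 6) (Fin 6) K)
    (u v : Fin 6 → Ω) : bl (∑ j ∈ s, M j) u v = ∑ j ∈ s, bl (M j) u v := by
  classical
  induction s using Finset.induction_on with
  | empty => rw [Finset.sum_empty, Finset.sum_empty, bl_zero_mat]
  | insert a s ha ih => rw [Finset.sum_insert ha, Finset.sum_insert ha, bl_add_mat, ih]

theorem bl_sm (M S : Matrix (Fin 6) (Fin 6) K) (α β : Ω) (u : Fin 6 → Ω) :
    bl M (sm S α β u) (sm S α β u) = α ^ 2 * bl M u u +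
      α * β * bl (Sᵀ * M + M * S) u u + β ^ 2 * bl (Sᵀ * M * S) u u := by
  unfold sm
  simp only [bl_add_left, bl_add_right, bl_smul_left, bl_smul_right, bl_left, bl_right,
    bl_add_mat, Matrix.mul_assoc]
  ring

variable {H : Pen K}

theorem Pen.IsPen.Q_sm (hH : H.IsPen) (j : Fin 2) (α β : Ω) (u : Fin 6 → Ω) :
    bl (H.Q j) (sm H.S α β u) (sm H.S α β u) =
      (α ^ 2 - algebraMap K Ω H.d * β ^ 2) * bl (H.Q j) u u := by
  have h1 : H.Sᵀ * H.Q j * H.S = (-H.d) • H.Q j := by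
    have h2 : H.Sᵀ * H.Q j = -(H.Q j * H.S) := eq_neg_of_add_eq_zero_left (hH.herQ j)
    rw [h2, Matrix.neg_mul, Matrix.mul_assoc, hH.sq, Matrix.mul_smul, Matrix.mul_one, neg_smul]
  rw [bl_sm, hH.herQ, h1, bl_zero_mat, bl_smul_mat, map_neg]
  ring

theorem Pen.IsPen.P_sm (hH : H.IsPen) (i : Fin 6) (α β : Ω) (u : Fin 6 → Ω) :
    bl (H.P i) (sm H.S α β u) (sm H.S α β u) =
      sm H.S (α ^ 2 + algebraMap K Ω H.d * β ^ 2) (-2 * α * β)
        (fun i => bl (H.P i) u u) i := by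
  have h0 : ∀ i, bl (∑ j, (-2 * H.S i j) • H.P j) u u =
      -2 * (mK H.S *ᵥ fun j => bl (H.P j) u u) i := by
    intro i
    rw [bl_sum_mat]
    simp only [mulVec, dotProduct, mK, Matrix.map_apply, Finset.mul_sum]
    refine Finset.sum_congr rfl fun j _ => ?_
    rw [bl_smul_mat, map_mul, map_neg, map_ofNat]
    ring
  have h1 : bl (H.Sᵀ * H.P i * H.S) u u = algebraMap K Ω H.d * bl (H.P i) u u := by
    have h2 : H.Sᵀ * H.P i = (∑ j, (-2 * H.S i j) • H.P j) - H.P i * H.S :=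
      eq_sub_of_add_eq (hH.herP i)
    have h3 : H.Sᵀ * H.P i * H.S =
        (∑ j, (-2 * H.S i j) • (H.P j * H.S)) + (-H.d) • H.P i := by
      rw [h2, Matrix.sub_mul, Matrix.mul_assoc, hH.sq, Matrix.mul_smul, Matrix.mul_one,
        Matrix.sum_mul, neg_smul, sub_eq_add_neg]
      simp only [Matrix.smul_mul]
    -- `P j S` and its transpose have the same quadratic form
    have h4 : ∀ j, 2 * bl (H.P j * H.S) u u = -2 * (mK H.S *ᵥ fun j => bl (H.P j) u u) j := by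
      intro j
      rw [← h0, ← hH.herP, bl_add_mat]
      have h5 : bl (H.Sᵀ * H.P j) u u = bl (H.P j * H.S) u u := by
        have h6 : H.Sᵀ * H.P j = (H.P j * H.S)ᵀ := by
          rw [Matrix.transpose_mul, hH.symP]
        rw [h6]
        unfold bl
        have h7 : (mK (H.P j * H.S)ᵀ : Matrix (Fin 6) (Fin 6) Ω) = (mK (H.P j * H.S))ᵀ := rfl
        rw [h7, mulVec_transpose, dotProduct_mulVec, dotProduct_comm]
      rw [h5]
      ring
    rw [h3, bl_add_mat, bl_sum_mat, bl_smul_mat, map_neg]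
    have h8 : ∑ j, bl ((-2 * H.S i j) • (H.P j * H.S)) u u =
        2 * (mK H.S *ᵥ (mK H.S *ᵥ fun j => bl (H.P j) u u)) i := by
      have h9 : ∀ j, bl ((-2 * H.S i j) • (H.P j * H.S)) u u =
          algebraMap K Ω (H.S i j) * (2 * (mK H.S *ᵥ fun j => bl (H.P j) u u) j) := by
        intro j
        rw [bl_smul_mat, map_mul, map_neg, map_ofNat]
        linear_combination -(algebraMap K Ω (H.S i j)) * h4 j
      rw [Finset.sum_congr rfl fun j _ => h9 j]
      conv_rhs => rw [mulVec, dotProduct, Finset.mul_sum]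
      refine Finset.sum_congr rfl fun j _ => ?_
      simp only [mK, Matrix.map_apply]
      ring
    rw [h8, mK_sq hH.sq, Pi.smul_apply, smul_eq_mul]
    ring
  rw [bl_sm, hH.herP, h0, h1]
  simp only [sm, Pi.add_apply, Pi.smul_apply, smul_eq_mul]
  ring

theorem rt_zero (d : K) (x : Fin 2 → Ω) : (mK (rt d) *ᵥ x) 0 = algebraMap K Ω d * x 1 := by
  simp [rt, mK, mulVec, dotProduct, Fin.sum_univ_two]

theorem rt_one (d : K) (x : Fin 2 → Ω) : (mK (rt d) *ᵥ x) 1 = x 0 := by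
  simp [rt, mK, mulVec, dotProduct, Fin.sum_univ_two]

/-- The torus preserves `W`. -/
theorem Pen.IsPen.tor_mem (hH : H.IsPen) {α β : Ω} {w : I8 → Ω} (hw : w ∈ H.W Ω) :
    tor H.d H.S α β w ∈ H.W Ω := by
  obtain ⟨hQ, hP⟩ := hw
  have hU : pU (tor H.d H.S α β w) =
      (α ^ 2 - algebraMap K Ω H.d * β ^ 2) • sm H.S α β (pU w) := rfl
  set N := α ^ 2 - algebraMap K Ω H.d * β ^ 2 with hN
  refine ⟨fun j => ?_, fun i => ?_⟩
  · rw [hU, bl_smul_left, bl_smul_right, hH.Q_sm, hQ, mul_zero, mul_zero, mul_zero]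
  · rw [hU, bl_smul_left, bl_smul_right, hH.P_sm, funext hP, sm_sm hH.sq, ← sm_scale,
      sm_sm hH.sq]
    have h0 : pL (tor H.d H.S α β w) 0 = (α ^ 3 + 3 * algebraMap K Ω H.d * α * β ^ 2) * pL w 0 +
        (3 * α ^ 2 * β + algebraMap K Ω H.d * β ^ 3) * (algebraMap K Ω H.d * pL w 1) := by
      rw [← rt_zero]
      rfl
    have h1 : pL (tor H.d H.S α β w) 1 = (α ^ 3 + 3 * algebraMap K Ω H.d * α * β ^ 2) * pL w 1 +
        (3 * α ^ 2 * β + algebraMap K Ω H.d * β ^ 3) * pL w 0 := by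
      rw [← rt_one H.d (pL w)]
      rfl
    rw [h0, h1, hN]
    simp only [sm, Pi.add_apply, Pi.smul_apply, smul_eq_mul]
    ring

theorem Pen.smul_mem (H : Pen K) {c : Ω} {w : I8 → Ω} (hw : w ∈ H.W Ω) : c • w ∈ H.W Ω := by
  obtain ⟨hQ, hP⟩ := hw
  have hU : pU (c • w) = c • pU w := rfl
  refine ⟨fun j => ?_, fun i => ?_⟩
  · rw [hU, bl_smul_left, bl_smul_right, hQ, mul_zero, mul_zero]
  · rw [hU, bl_smul_left, bl_smul_right, hP]
    have h0 : ∀ j, pL (c • w) j = c * pL w j := fun _ => rfl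
    rw [h0, h0]
    simp only [sm, Pi.add_apply, Pi.smul_apply, smul_eq_mul, mulVec_smul]
    ring

theorem bl_mem {T : IntermediateField K Ω} (M : Matrix (Fin 6) (Fin 6) K) {u v : Fin 6 → Ω}
    (hu : ∀ i, u i ∈ T) (hv : ∀ i, v i ∈ T) : bl M u v ∈ T := by
  unfold bl dotProduct
  exact sum_mem fun i _ => mul_mem (hu i) (mK_mem M hv i)

/-- `u` and `S u` are independent. -/
theorem exists_minor {S : Matrix (Fin 6) (Fin 6) K} {d : K} (hS : S * S = d • 1) (hd : NSq Ω d)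
    {u : Fin 6 → Ω} (hu : u ≠ 0) :
    ∃ i j, u i * (mK S *ᵥ u) j - u j * (mK S *ᵥ u) i ≠ 0 := by
  by_contra hcon
  push Not at hcon
  obtain ⟨i, hi⟩ := Function.ne_iff.1 hu
  have hi' : u i ≠ 0 := hi
  obtain ⟨f, hf⟩ : ∃ f : Ω, mK S *ᵥ u = f • u := by
    refine ⟨(mK S *ᵥ u) i / u i, funext fun j => ?_⟩
    have h2 := hcon i j
    rw [Pi.smul_apply, smul_eq_mul]
    field_simp
    linear_combination h2
  have h2 := mK_sq hS u
  rw [hf, mulVec_smul, hf, smul_smul] at h2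
  have h3 := congrFun h2 i
  simp only [Pi.smul_apply, smul_eq_mul] at h3
  have h4 := mul_right_cancel₀ hi' h3
  apply hd f
  rw [pow_two, h4]

/-- In `W` the component in `L` is determined by the component in `U`. -/
theorem Pen.det_mem {H : Pen K} (hS : H.S * H.S = H.d • 1) (hd : NSq Ω H.d)
    (T : IntermediateField K Ω) {w : I8 → Ω} (hw : w ∈ H.W Ω) (hu : pU w ≠ 0)
    (hT : ∀ i, pU w i ∈ T) (j : Fin 2) : pL w j ∈ T := by
  obtain ⟨i, k, hD⟩ := exists_minor hS hd hu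
  set u := pU w with hud
  set v := mK H.S *ᵥ u with hv
  have hvT : ∀ i, v i ∈ T := fun i => mK_mem H.S hT i
  have h1 : ∀ i, pL w 0 * u i - pL w 1 * v i ∈ T := by
    intro i
    have h2 := hw.2 i
    have h3 : pL w 0 * u i - pL w 1 * v i = bl (H.P i) u u := by
      rw [h2]
      simp only [sm, Pi.add_apply, Pi.smul_apply, smul_eq_mul]
      ring
    rw [h3]
    exact bl_mem _ hT hT
  have hDT : u i * v k - u k * v i ∈ T :=
    sub_mem (mul_mem (hT i) (hvT k)) (mul_mem (hT k) (hvT i))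
  have h0 : pL w 0 = ((pL w 0 * u i - pL w 1 * v i) * v k -
      (pL w 0 * u k - pL w 1 * v k) * v i) / (u i * v k - u k * v i) := by
    rw [eq_div_iff hD]
    ring
  have h1' : pL w 1 = ((pL w 0 * u i - pL w 1 * v i) * u k -
      (pL w 0 * u k - pL w 1 * v k) * u i) / (u i * v k - u k * v i) := by
    rw [eq_div_iff hD]
    ring
  fin_cases j
  · change pL w 0 ∈ T
    rw [h0]
    exact div_mem (sub_mem (mul_mem (h1 i) (hvT k)) (mul_mem (h1 k) (hvT i))) hDT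
  · change pL w 1 ∈ T
    rw [h1']
    exact div_mem (sub_mem (mul_mem (h1 i) (hT k)) (mul_mem (h1 k) (hT i))) hDT

/-- The two moves, for hermitian pencils. `H₁`, `H₂` are two pencils, `J` is an isomorphism of
`N₁` with `N₂` which maps the points `(ξ, u)`, `u ≠ 0`, of the cone `W` of `H₁` into the cone `W`
of `H₂`. -/
theorem Pen.two [CharZero K] {H₁ H₂ : Pen K} {J : Matrix I8 I8 K} (hJ : IsUnit J.det)
    (hH₁ : H₁.IsPen) (h₁ : NSq Ω H₁.d) (hS₂ : H₂.S * H₂.S = H₂.d • 1) (h₂ : NSq Ω H₂.d)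
    (hJW : ∀ w ∈ H₁.W Ω, pU w ≠ 0 → mK J *ᵥ w ∈ H₂.W Ω) {w : I8 → Ω}
    (hw : w ∈ H₁.W Ω) (hw0 : pL w ≠ 0) (hnd : ND H₁.S (pU w)) {θ : Fin 6 → K} (hθ : θ ≠ 0)
    (hθw : vK θ ⬝ᵥ pU w = 0) :
    ∃ w' ∈ H₁.W Ω, pU w' ≠ 0 ∧ pJ J w' ≠ 0 ∧ pL (mK J *ᵥ w') ≠ 0 ∧
      ∀ (T : IntermediateField K Ω) (v : Fin 6 → Ω) (α β : Ω),
      (∀ i, v i ∈ T) → pJ J w' = sm H₂.S α β v → ∃ c : Ω, c ≠ 0 ∧ ∀ i, c * w i ∈ T :=
  Pool.Agent.GSH.two hJ hH₁.sq h₁ hS₂ h₂ (fun _ _ _ _ hw => hH₁.tor_mem hw) hJW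
    (fun _ _ _ hw => H₁.smul_mem hw) (fun _ _ _ hw => H₂.smul_mem hw)
    (fun T _ hw hu hT => Pen.det_mem hH₁.sq h₁ T hw hu hT)
    (fun T _ hw hu hT => Pen.det_mem hS₂ h₂ T hw hu hT) hw hw0 hnd hθ hθw

end Pool.Agent.GSH
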