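import Pool.Agent.GSH.TwoY

/-!
# GSH: the two moves, conclusion

`two`: `W₁`, `W₂` two cones in `N₁`, `N₂` over `Ω` such that `J` maps the points of `W₁` with
`u ≠ 0` to `W₂`, `W₁` stable under the torus of `N₁`, such that the component in `L` of a point is
determined by the component in `U` (`det₁`, `det₂`). For a point `w` of `W₁` (in general position,
and with `θ (pU w) = 0` for a functional `θ ≠ 0` over `K`) there is a point `w'` in `W₁` such that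
`w` is rational over every field `T` between `K` and `Ω` such that the class of `pU (J w')` modulo
`L₂^*` is rational over `T`.
-/

set_option autoImplicit false

noncomputable section

namespace Pool.Agent.GSH

open Matrix

variable {K Ω : Type} [Field K] [Field Ω] [Algebra K Ω]

theorem vK_dot_mem {T : IntermediateField K Ω} {n : Type} [Fintype n] (f : n → K) {v : n → Ω}
    (hv : ∀ i, v i ∈ T) : vK f ⬝ᵥ v ∈ T :=
  sum_mem fun i _ => mul_mem (T.algebraMap_mem _) (hv i)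

theorem mK_mem {T : IntermediateField K Ω} {m n : Type} [Fintype n] (M : Matrix m n K) {v : n → Ω}
    (hv : ∀ i, v i ∈ T) (i : m) : (mK M *ᵥ v) i ∈ T :=
  sum_mem fun j _ => mul_mem (T.algebraMap_mem _) (hv j)

theorem sm_mem {T : IntermediateField K Ω} (S : Matrix (Fin 6) (Fin 6) K) {α β : Ω}
    {v : Fin 6 → Ω} (ha : α ∈ T) (hb : β ∈ T) (hv : ∀ i, v i ∈ T) (i : Fin 6) :
    sm S α β v i ∈ T :=
  add_mem (mul_mem ha (hv i)) (mul_mem hb (mK_mem S hv i))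

theorem sm_scale (S : Matrix (Fin 6) (Fin 6) K) (c α β : Ω) (v : Fin 6 → Ω) :
    sm S (c * α) (c * β) v = c • sm S α β v := by
  unfold sm
  funext i
  simp only [Pi.add_apply, Pi.smul_apply, smul_eq_mul]
  ring

theorem dot_sm (S : Matrix (Fin 6) (Fin 6) K) (α β : Ω) (v : Fin 6 → Ω) (f : Fin 6 → Ω) :
    f ⬝ᵥ sm S α β v = α * (f ⬝ᵥ v) + β * (f ⬝ᵥ (mK S *ᵥ v)) := by
  unfold sm
  rw [dotProduct_add, dotProduct_smul, dotProduct_smul, smul_eq_mul, smul_eq_mul]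

/-- A functional over `K` which kills `u` fixes the factor in `L`. -/
theorem ratl {T : IntermediateField K Ω} {S : Matrix (Fin 6) (Fin 6) K} {u v : Fin 6 → Ω}
    {α β : Ω} {f : Fin 6 → K} (hv : ∀ i, v i ∈ T) (hu : u = sm S α β v) (hu0 : u ≠ 0)
    (hf : vK f ⬝ᵥ u = 0) (hne : vK f ⬝ᵥ v ≠ 0 ∨ vK f ⬝ᵥ (mK S *ᵥ v) ≠ 0) :
    ∃ c : Ω, c ≠ 0 ∧ ∀ i, c * u i ∈ T := by
  set a := vK f ⬝ᵥ (mK S *ᵥ v) with ha
  set b := vK f ⬝ᵥ v with hb
  have h1 : α * b + β * a = 0 := by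
    rw [← hf, hu, dot_sm]
  obtain ⟨c, h2, h3⟩ : ∃ c : Ω, α = c * a ∧ β = c * -b := by
    by_cases ha0 : a = 0
    · have hb0 : b ≠ 0 := hne.resolve_right (not_not.2 ha0)
      rw [ha0, mul_zero, add_zero] at h1
      have h4 : α = 0 := (mul_eq_zero.1 h1).resolve_right hb0
      exact ⟨-β / b, by rw [ha0, h4, mul_zero], by field_simp⟩
    · refine ⟨α / a, by field_simp, ?_⟩
      field_simp
      linear_combination h1
  have h4 : u = c • sm S a (-b) v := by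
    rw [hu, h2, h3, sm_scale]
  have hc : c ≠ 0 := by
    intro h5
    apply hu0
    rw [h4, h5, zero_smul]
  refine ⟨c⁻¹, inv_ne_zero hc, fun i => ?_⟩
  have h5 : c⁻¹ * u i = sm S a (-b) v i := by
    rw [h4, Pi.smul_apply, smul_eq_mul, inv_mul_cancel_left₀ hc]
  rw [h5]
  exact sm_mem S (mK_mem' hv) (neg_mem (vK_dot_mem f hv)) hv i
where
  mK_mem' {T : IntermediateField K Ω} {S : Matrix (Fin 6) (Fin 6) K} {v : Fin 6 → Ω}
      {f : Fin 6 → K} (hv : ∀ i, v i ∈ T) : vK f ⬝ᵥ (mK S *ᵥ v) ∈ T :=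
    vK_dot_mem f fun i => mK_mem S hv i

variable {J : Matrix I8 I8 K} {d₁ d₂ : K} {S₁ S₂ : Matrix (Fin 6) (Fin 6) K} {w : I8 → Ω}

/-- The two moves. -/
theorem two [CharZero K] (hJ : IsUnit J.det) (hS₁ : S₁ * S₁ = d₁ • 1) (h₁ : NSq Ω d₁)
    (hS₂ : S₂ * S₂ = d₂ • 1) (h₂ : NSq Ω d₂) {W₁ W₂ : Set (I8 → Ω)}
    (htor : ∀ α β : Ω, α ≠ 0 ∨ β ≠ 0 → ∀ w ∈ W₁, tor d₁ S₁ α β w ∈ W₁)
    (hJW : ∀ w ∈ W₁, pU w ≠ 0 → mK J *ᵥ w ∈ W₂)
    (hsc₁ : ∀ c : Ω, c ≠ 0 → ∀ w ∈ W₁, c • w ∈ W₁) (hsc₂ : ∀ c : Ω, c ≠ 0 → ∀ w ∈ W₂, c • w ∈ W₂)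
    (hdet₁ : ∀ T : IntermediateField K Ω, ∀ w ∈ W₁, pU w ≠ 0 → (∀ i, pU w i ∈ T) →
      ∀ j, pL w j ∈ T)
    (hdet₂ : ∀ T : IntermediateField K Ω, ∀ w ∈ W₂, pU w ≠ 0 → (∀ i, pU w i ∈ T) →
      ∀ j, pL w j ∈ T)
    (hw : w ∈ W₁) (hw0 : pL w ≠ 0) (hnd : ND S₁ (pU w)) {θ : Fin 6 → K} (hθ : θ ≠ 0)
    (hθw : vK θ ⬝ᵥ pU w = 0) :
    ∃ w' ∈ W₁, pU w' ≠ 0 ∧ pJ J w' ≠ 0 ∧ pL (mK J *ᵥ w') ≠ 0 ∧
      ∀ (T : IntermediateField K Ω) (v : Fin 6 → Ω) (α β : Ω),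
      (∀ i, v i ∈ T) → pJ J w' = sm S₂ α β v → ∃ c : Ω, c ≠ 0 ∧ ∀ i, c * w i ∈ T := by
  obtain ⟨y, hy, hyne, hyL⟩ := exists_y hJ hS₁ h₁ hS₂ h₂ hnd hw0
  set α := vK y ⬝ᵥ pJ J (Sum.elim 0 (mK S₁ *ᵥ pU w)) with hα
  set β := -(vK y ⬝ᵥ pJ J (Sum.elim 0 (pU w))) with hβ
  have hy' : ∀ j, (vK y : Fin 6 → Ω) ⬝ᵥ vK (mJ J j) = 0 := by
    intro j
    rw [vK_dot, hy, map_zero]
  have hy0 : vK y ⬝ᵥ pJ J (tor d₁ S₁ α β w) = 0 := by
    rw [dot_tor hy', hα, hβ]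
    ring
  have hne : pJ J (tor d₁ S₁ α β w) ≠ 0 := by
    intro h0
    apply hyne
    rw [h0, mulVec_zero, dotProduct_zero]
  have hab : α ≠ 0 ∨ β ≠ 0 := by
    by_contra hc
    push Not at hc
    apply hne
    rw [hc.1, hc.2]
    have h3 := tor_smul (d := d₁) (S := S₁) (0 : Ω) 0 0 w
    rw [zero_mul] at h3
    rw [h3, pJ_smul]
    simp
  have hN0 : α ^ 2 - algebraMap K Ω d₁ * β ^ 2 ≠ 0 := h₁.norm hab
  have hxU : pU (tor d₁ S₁ α β w) =
      (α ^ 2 - algebraMap K Ω d₁ * β ^ 2) • sm S₁ α β (pU w) := rfl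
  have hxU0 : pU (tor d₁ S₁ α β w) ≠ 0 := by
    intro h0
    rw [hxU] at h0
    have h1 : sm S₁ α β (pU w) = 0 := by
      funext i
      exact (mul_eq_zero.1 (congrFun h0 i)).resolve_left hN0
    refine hnd.sm_ne hS₁ h₁ hab hθ ?_ ?_
    · rw [h1, dotProduct_zero]
    · rw [h1, mulVec_zero, dotProduct_zero]
  refine ⟨tor d₁ S₁ α β w, htor α β hab w hw, hxU0, hne, hyL, fun T v a b hv hvab => ?_⟩
  have hx := htor α β hab w hw
  set x := tor d₁ S₁ α β w with hxd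
  -- `J w'` is rational over `T` up to a factor
  obtain ⟨c, hc, hcT⟩ := ratl (f := y) hv hvab hne hy0 (by
    by_contra hcon
    push Not at hcon
    apply hyne
    rw [hvab]
    unfold sm
    rw [mulVec_add, mulVec_smul, mulVec_smul, mK_sq hS₂, dotProduct_add, dotProduct_smul,
      dotProduct_smul, dotProduct_smul, hcon.1, hcon.2]
    simp)
  have h3 : c • (mK J *ᵥ x) ∈ W₂ := hsc₂ c hc _ (hJW _ hx hxU0)
  have h4 : ∀ i, pU (c • (mK J *ᵥ x)) i ∈ T := hcT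
  have h5 : pU (c • (mK J *ᵥ x)) ≠ 0 := by
    intro h0
    apply hne
    funext i
    have h6 := congrFun h0 i
    exact (mul_eq_zero.1 h6).resolve_left hc
  have h6 := hdet₂ T _ h3 h5 h4
  have h7 : ∀ i, (c • (mK J *ᵥ x)) i ∈ T := by
    rintro (i | i)
    · exact h6 i
    · exact h4 i
  have h8 : ∀ i, (c • x) i ∈ T := by
    have h9 : mK J⁻¹ *ᵥ (c • (mK J *ᵥ x)) = c • x := by
      rw [mulVec_smul, mK_mul, nonsing_inv_mul _ hJ]
      have h4 : (mK (1 : Matrix I8 I8 K) : Matrix I8 I8 Ω) = 1 :=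
        Matrix.map_one _ (map_zero _) (map_one _)
      rw [h4, one_mulVec]
    intro i
    rw [← h9]
    exact mK_mem J⁻¹ h7 i
  -- `w`
  set N := α ^ 2 - algebraMap K Ω d₁ * β ^ 2 with hN
  have h10 : ∀ i, (sm S₁ (c * N * α) (c * N * β) (pU w)) i ∈ T := by
    intro i
    have h11 : sm S₁ (c * N * α) (c * N * β) (pU w) = c • pU x := by
      rw [sm_scale, hxU, smul_smul]
    rw [h11]
    exact h8 (Sum.inr i)
  have hcN : c * N ≠ 0 := mul_ne_zero hc hN0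
  have hab' : c * N * α ≠ 0 ∨ c * N * β ≠ 0 :=
    hab.imp (mul_ne_zero hcN) (mul_ne_zero hcN)
  have hu0 : pU w ≠ 0 := by
    intro h0
    apply hθ
    refine hnd θ hθw ?_
    rw [h0, mulVec_zero, dotProduct_zero]
  have hu : pU w = sm S₁ (α / (c * N * N)) (-β / (c * N * N))
      (sm S₁ (c * N * α) (c * N * β) (pU w)) := by
    rw [sm_sm hS₁]
    have e1 : α / (c * N * N) * (c * N * α) +
        algebraMap K Ω d₁ * (-β / (c * N * N) * (c * N * β)) = 1 := by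
      have e3 : α / (c * N * N) * (c * N * α) +
        algebraMap K Ω d₁ * (-β / (c * N * N) * (c * N * β)) =
          (α ^ 2 - algebraMap K Ω d₁ * β ^ 2) * (c * N) / (c * N * N) := by ring
      rw [e3, ← hN]
      field_simp
    have e2 : α / (c * N * N) * (c * N * β) + -β / (c * N * N) * (c * N * α) = 0 := by ring
    rw [e1, e2]
    unfold sm
    rw [one_smul, zero_smul, add_zero]
  obtain ⟨c', hc', hcT'⟩ := ratl (f := θ) h10 hu hu0 hθw (by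
    by_contra hcon
    push Not at hcon
    exact hnd.sm_ne hS₁ h₁ hab' hθ hcon.1 hcon.2)
  refine ⟨c', hc', ?_⟩
  have h12 : c' • w ∈ W₁ := hsc₁ c' hc' _ hw
  have h13 : ∀ i, pU (c' • w) i ∈ T := hcT'
  have h14 : pU (c' • w) ≠ 0 := by
    intro h0
    apply hu0
    funext i
    exact (mul_eq_zero.1 (congrFun h0 i)).resolve_left hc'
  have h15 := hdet₁ T _ h12 h14 h13
  rintro (i | i)
  · exact h15 i
  · exact h13 i

end Pool.Agent.GSH
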