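import Pool.Agent.GSH.Two

/-!
# GSH: existence of the functional `y`

`exists_y`: see `Pool.Agent.GSH.Two`. The number `y(S₂ J w'(y))` is a polynomial in `y`. If it is
zero for all `y` over `K` which kill `m j = J (e_j, 0)`, then it is zero for all such `y` over `Ω`.
Then for every `(α, β) ≠ 0` the vector `v` = component in `U₂` of `J w'`, `w' = tor α β w`,
satisfies `(S₂ - c) v ∈ <m 0, m 1>` for some `c`, and a functional `f` over `K` which kills `m j`,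
`S₂ m j` kills `v`. This is impossible, by the general position of `w`.
-/

set_option autoImplicit false

noncomputable section

namespace Pool.Agent.GSH

open Matrix

variable {K Ω : Type} [Field K] [Field Ω] [Algebra K Ω]

/-- a linear form as a polynomial -/
def lf (e : Fin 6 → Ω) : MvPolynomial (Fin 6) Ω := ∑ i, MvPolynomial.C (e i) * MvPolynomial.X i

omit [Algebra K Ω] [Field K] in
theorem eval_lf (e y : Fin 6 → Ω) : MvPolynomial.eval y (lf e) = y ⬝ᵥ e := by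
  unfold lf
  simp only [map_sum, map_mul, MvPolynomial.eval_C, MvPolynomial.eval_X, dotProduct]
  exact Finset.sum_congr rfl fun i _ => mul_comm _ _

theorem tor_sum4 (d : K) (S : Matrix (Fin 6) (Fin 6) K) (α β : Ω)
    (w : I8 → Ω) : tor d S α β w =
      (α ^ 3 + 3 * algebraMap K Ω d * α * β ^ 2) • (Sum.elim (pL w) 0 : I8 → Ω) +
      (3 * α ^ 2 * β + algebraMap K Ω d * β ^ 3) •
        (Sum.elim (mK (rt d) *ᵥ pL w) 0 : I8 → Ω) +
      (α ^ 2 - algebraMap K Ω d * β ^ 2) • (α • (Sum.elim 0 (pU w) : I8 → Ω) +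
        β • (Sum.elim 0 (mK S *ᵥ pU w) : I8 → Ω)) := by
  funext i
  rcases i with i | i
  · simp only [tor, Sum.elim_inl, Pi.add_apply, Pi.smul_apply, smul_eq_mul, Pi.zero_apply,
      mul_zero, add_zero]
  · simp only [tor, sm, Sum.elim_inr, Pi.add_apply, Pi.smul_apply, smul_eq_mul, Pi.zero_apply,
      mul_zero, zero_add]

theorem pJ_sum4 (J : Matrix I8 I8 K) (d : K) (S : Matrix (Fin 6) (Fin 6) K) (α β : Ω)
    (w : I8 → Ω) : pJ J (tor d S α β w) =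
      (α ^ 3 + 3 * algebraMap K Ω d * α * β ^ 2) • pJ J (Sum.elim (pL w) 0) +
      (3 * α ^ 2 * β + algebraMap K Ω d * β ^ 3) • pJ J (Sum.elim (mK (rt d) *ᵥ pL w) 0) +
      (α ^ 2 - algebraMap K Ω d * β ^ 2) • (α • pJ J (Sum.elim 0 (pU w)) +
        β • pJ J (Sum.elim 0 (mK S *ᵥ pU w))) := by
  rw [← pJ_smul, ← pJ_smul, ← pJ_smul, ← pJ_smul, ← pJ_add, ← pJ_add, ← pJ_smul, ← pJ_add,
    ← tor_sum4]

theorem tor_smul {d : K} {S : Matrix (Fin 6) (Fin 6) K} (c α β : Ω) (w : I8 → Ω) :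
    tor d S (c * α) (c * β) w = c ^ 3 • tor d S α β w := by
  funext i
  rcases i with i | i
  · simp only [tor, Sum.elim_inl, Pi.add_apply, Pi.smul_apply, smul_eq_mul]
    ring
  · simp only [tor, Sum.elim_inr, Pi.smul_apply, smul_eq_mul, sm, Pi.add_apply]
    ring

theorem dot_inl {J : Matrix I8 I8 K} {y : Fin 6 → Ω} (hy : ∀ j, y ⬝ᵥ vK (mJ J j) = 0)
    (a : Fin 2 → Ω) : y ⬝ᵥ pJ J (Sum.elim a 0) = 0 := by
  rw [pJ_inl, dotProduct_sum]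
  refine Finset.sum_eq_zero fun j _ => ?_
  rw [dotProduct_smul, hy, smul_zero]

/-- the value of `y` on `J w'` -/
theorem dot_tor {J : Matrix I8 I8 K} {y : Fin 6 → Ω} (hy : ∀ j, y ⬝ᵥ vK (mJ J j) = 0)
    (d : K) (S : Matrix (Fin 6) (Fin 6) K) (α β : Ω) (w : I8 → Ω) :
    y ⬝ᵥ pJ J (tor d S α β w) = (α ^ 2 - algebraMap K Ω d * β ^ 2) *
      (α * (y ⬝ᵥ pJ J (Sum.elim 0 (pU w))) + β * (y ⬝ᵥ pJ J (Sum.elim 0 (mK S *ᵥ pU w)))) := by
  rw [pJ_sum4, dotProduct_add, dotProduct_add, dotProduct_smul, dotProduct_smul, dot_inl hy,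
    dot_inl hy, dotProduct_smul, dotProduct_add, dotProduct_smul, dotProduct_smul]
  simp only [smul_eq_mul, mul_zero, add_zero, zero_add]

theorem sm_comb (J : Matrix I8 I8 K) (S : Matrix (Fin 6) (Fin 6) K) (α β : Ω) (u : Fin 6 → Ω) :
    pJ J (Sum.elim 0 (sm S α β u)) =
      α • pJ J (Sum.elim 0 u) + β • pJ J (Sum.elim 0 (mK S *ᵥ u)) := by
  rw [← pJ_smul, ← pJ_smul, ← pJ_add]
  congr 1
  funext i
  rcases i with i | i <;> simp [sm]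

variable {J : Matrix I8 I8 K} {d₁ d₂ : K} {S₁ S₂ : Matrix (Fin 6) (Fin 6) K} {w : I8 → Ω}

/-- the step of linear algebra: `(S₂ - c) v ∈ <m 0, m 1>` -/
theorem exists_c (hJ : IsUnit J.det) (hS₁ : S₁ * S₁ = d₁ • 1) (h₁ : NSq Ω d₁)
    (hnd : ND S₁ (pU w))
    (hP : ∀ y : Fin 6 → Ω, (∀ j, y ⬝ᵥ vK (mJ J j) = 0) →
      y ⬝ᵥ (mK S₂ *ᵥ pJ J (tor d₁ S₁ (y ⬝ᵥ pJ J (Sum.elim 0 (mK S₁ *ᵥ pU w)))
        (-(y ⬝ᵥ pJ J (Sum.elim 0 (pU w)))) w)) = 0)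
    {α β : Ω} (hab : α ≠ 0 ∨ β ≠ 0) :
    ∃ (c : Ω) (l : Fin 2 → Ω), mK S₂ *ᵥ pJ J (tor d₁ S₁ α β w) =
      c • pJ J (tor d₁ S₁ α β w) + ∑ j, l j • vK (mJ J j) := by
  set p : (Fin 6 → Ω) → Ω := fun y => y ⬝ᵥ pJ J (Sum.elim 0 (pU w)) with hp
  set q : (Fin 6 → Ω) → Ω := fun y => y ⬝ᵥ pJ J (Sum.elim 0 (mK S₁ *ᵥ pU w)) with hq
  set v := pJ J (tor d₁ S₁ α β w) with hv
  have hadd : ∀ (y y' : Fin 6 → Ω) (a b : Ω), p (a • y + b • y') = a * p y + b * p y' := by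
    intro y y' a b
    simp only [hp, add_dotProduct, smul_dotProduct, smul_eq_mul]
  have hadd' : ∀ (y y' : Fin 6 → Ω) (a b : Ω), q (a • y + b • y') = a * q y + b * q y' := by
    intro y y' a b
    simp only [hq, add_dotProduct, smul_dotProduct, smul_eq_mul]
  have hker : ∀ (y y' : Fin 6 → Ω) (a b : Ω), (∀ j, y ⬝ᵥ vK (mJ J j) = 0) →
      (∀ j, y' ⬝ᵥ vK (mJ J j) = 0) → ∀ j, (a • y + b • y') ⬝ᵥ vK (mJ J j) = 0 := by
    intro y y' a b h h' j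
    rw [add_dotProduct, smul_dotProduct, smul_dotProduct, h, h', smul_zero, smul_zero, add_zero]
  have hstar : ∀ a b : Ω, a ≠ 0 ∨ b ≠ 0 →
      ∃ y : Fin 6 → Ω, (∀ j, y ⬝ᵥ vK (mJ J j) = 0) ∧ a * p y + b * q y ≠ 0 := by
    intro a b h
    obtain ⟨y, hy, hy'⟩ := exists_ne hJ hS₁ h₁ hnd h
    refine ⟨y, hy, ?_⟩
    rw [sm_comb, dotProduct_add, dotProduct_smul, dotProduct_smul] at hy'
    exact hy'
  -- `y` with `α p + β q = 0` and `(p, q) ≠ 0`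
  have h1 : ∀ y : Fin 6 → Ω, (∀ j, y ⬝ᵥ vK (mJ J j) = 0) → α * p y + β * q y = 0 →
      (p y ≠ 0 ∨ q y ≠ 0) → y ⬝ᵥ (mK S₂ *ᵥ v) = 0 := by
    intro y hy hψ hpq
    obtain ⟨c, hc, hcα, hcβ⟩ : ∃ c : Ω, c ≠ 0 ∧ q y = c * α ∧ -p y = c * β := by
      by_cases hb : β = 0
      · have ha : α ≠ 0 := hab.resolve_right (not_not.2 hb)
        have hp0 : p y = 0 := by
          rw [hb, zero_mul, add_zero] at hψ
          exact (mul_eq_zero.1 hψ).resolve_left ha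
        refine ⟨q y / α, div_ne_zero (hpq.resolve_left (not_not.2 hp0)) ha, ?_, ?_⟩
        · field_simp
        · rw [hp0, hb]
          ring
      · have hq1 : q y = -p y / β * α := by
          field_simp
          linear_combination hψ
        refine ⟨-p y / β, ?_, hq1, by field_simp⟩
        intro h0
        rw [h0, zero_mul] at hq1
        rcases hpq with h | h
        · rw [div_eq_zero_iff] at h0
          rcases h0 with h0 | h0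
          · exact h (neg_eq_zero.1 h0)
          · exact hb h0
        · exact h hq1
    have h2 := hP y hy
    have h3 : tor d₁ S₁ (q y) (-p y) w = c ^ 3 • tor d₁ S₁ α β w := by
      rw [hcα, hcβ, tor_smul]
    have h4 : y ⬝ᵥ (mK S₂ *ᵥ pJ J (tor d₁ S₁ (q y) (-p y) w)) = 0 := h2
    rw [h3, pJ_smul, mulVec_smul, dotProduct_smul, smul_eq_mul] at h4
    exact (mul_eq_zero.1 h4).resolve_left (pow_ne_zero 3 hc)
  obtain ⟨y₁, hy₁, hψ₁⟩ := hstar α β hab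
  -- there is a `y` as in `h1`
  obtain ⟨y₀, hy₀, hψ₀, hpq₀⟩ : ∃ y₀ : Fin 6 → Ω, (∀ j, y₀ ⬝ᵥ vK (mJ J j) = 0) ∧
      α * p y₀ + β * q y₀ = 0 ∧ (p y₀ ≠ 0 ∨ q y₀ ≠ 0) := by
    by_contra hcon
    push Not at hcon
    set ψ₁ := α * p y₁ + β * q y₁ with hψ₁d
    have h2 : ∀ y : Fin 6 → Ω, (∀ j, y ⬝ᵥ vK (mJ J j) = 0) →
        ψ₁ * p y = (α * p y + β * q y) * p y₁ ∧ ψ₁ * q y = (α * p y + β * q y) * q y₁ := by
      intro y hy
      have h3 := hcon (ψ₁ • y + (-(α * p y + β * q y)) • y₁) (hker _ _ _ _ hy hy₁) (by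
        rw [hadd, hadd', hψ₁d]
        ring)
      rw [hadd, hadd'] at h3
      constructor
      · linear_combination h3.1
      · linear_combination h3.2
    by_cases h3 : p y₁ = 0 ∧ q y₁ = 0
    · apply hψ₁
      rw [hψ₁d, h3.1, h3.2]
      ring
    · obtain ⟨y, hy, hne⟩ := hstar (q y₁) (-p y₁) (by
        by_contra hc
        push Not at hc
        exact h3 ⟨neg_eq_zero.1 hc.2, hc.1⟩)
      apply hne
      obtain ⟨h4, h5⟩ := h2 y hy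
      have h6 : ψ₁ * (q y₁ * p y + -p y₁ * q y) = 0 := by
        linear_combination q y₁ * h4 - p y₁ * h5
      exact (mul_eq_zero.1 h6).resolve_left hψ₁
  have h2 : ∀ y : Fin 6 → Ω, (∀ j, y ⬝ᵥ vK (mJ J j) = 0) → α * p y + β * q y = 0 →
      y ⬝ᵥ (mK S₂ *ᵥ v) = 0 := by
    intro y hy hψ
    by_cases hpq : p y ≠ 0 ∨ q y ≠ 0
    · exact h1 y hy hψ hpq
    · push Not at hpq
      have h3 := h1 ((1 : Ω) • y + (1 : Ω) • y₀) (hker _ _ _ _ hy hy₀) (by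
        rw [hadd, hadd', hpq.1, hpq.2]
        linear_combination hψ₀) (by
        rw [hadd, hadd', hpq.1, hpq.2]
        simpa using hpq₀)
      have h4 := h1 y₀ hy₀ hψ₀ hpq₀
      rw [add_dotProduct, smul_dotProduct, smul_dotProduct, h4, one_smul, smul_zero,
        add_zero] at h3
      exact h3
  set N := α ^ 2 - algebraMap K Ω d₁ * β ^ 2 with hN
  have hN0 : N ≠ 0 := h₁.norm hab
  set c := (y₁ ⬝ᵥ (mK S₂ *ᵥ v)) / (α * p y₁ + β * q y₁) / N with hc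
  have h3 : ∀ y : Fin 6 → Ω, (∀ j, y ⬝ᵥ vK (mJ J j) = 0) →
      y ⬝ᵥ (mK S₂ *ᵥ v - c • v) = 0 := by
    intro y hy
    have h4 := h2 ((α * p y₁ + β * q y₁) • y + (-(α * p y + β * q y)) • y₁)
      (hker _ _ _ _ hy hy₁) (by
        rw [hadd, hadd']
        ring)
    rw [add_dotProduct, smul_dotProduct, smul_dotProduct, smul_eq_mul, smul_eq_mul] at h4
    have h5 : y ⬝ᵥ v = N * (α * p y + β * q y) := dot_tor hy d₁ S₁ α β w
    rw [dotProduct_sub, dotProduct_smul, smul_eq_mul, h5, hc]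
    field_simp
    linear_combination h4
  obtain ⟨l, hl⟩ := mem_span2 h3
  exact ⟨c, l, by rw [← hl]; abel⟩

/-- the functional `f` -/
theorem dot_zero (hJ : IsUnit J.det) (hS₁ : S₁ * S₁ = d₁ • 1) (h₁ : NSq Ω d₁)
    (hS₂ : S₂ * S₂ = d₂ • 1) (h₂ : NSq Ω d₂) (hnd : ND S₁ (pU w))
    (hP : ∀ y : Fin 6 → Ω, (∀ j, y ⬝ᵥ vK (mJ J j) = 0) →
      y ⬝ᵥ (mK S₂ *ᵥ pJ J (tor d₁ S₁ (y ⬝ᵥ pJ J (Sum.elim 0 (mK S₁ *ᵥ pU w)))
        (-(y ⬝ᵥ pJ J (Sum.elim 0 (pU w)))) w)) = 0)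
    {f : Fin 6 → K} (hf : ∀ j, f ⬝ᵥ mJ J j = 0) (hf' : ∀ j, f ⬝ᵥ S₂ *ᵥ mJ J j = 0)
    {α β : Ω} (hab : α ≠ 0 ∨ β ≠ 0) : vK f ⬝ᵥ pJ J (tor d₁ S₁ α β w) = 0 := by
  obtain ⟨c, l, hc⟩ := exists_c hJ hS₁ h₁ hnd hP hab
  set v := pJ J (tor d₁ S₁ α β w) with hv
  have h3 : vK f ⬝ᵥ (mK S₂ *ᵥ v) = c * (vK f ⬝ᵥ v) := by
    rw [hc, dotProduct_add, dotProduct_smul, dotProduct_sum, smul_eq_mul]
    rw [Finset.sum_eq_zero fun j _ => by
      rw [dotProduct_smul, vK_dot, hf, map_zero, smul_zero], add_zero]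
  have h4 : vK f ⬝ᵥ (mK S₂ *ᵥ (mK S₂ *ᵥ v)) = c * (vK f ⬝ᵥ (mK S₂ *ᵥ v)) := by
    conv_lhs => rw [hc]
    rw [mulVec_add, mulVec_smul, mulVec_sum, dotProduct_add, dotProduct_smul, dotProduct_sum,
      smul_eq_mul]
    rw [Finset.sum_eq_zero fun j _ => by
      rw [mulVec_smul, dotProduct_smul, mK_vK, vK_dot, hf', map_zero, smul_zero], add_zero]
  rw [mK_sq hS₂, dotProduct_smul, smul_eq_mul, h3] at h4
  have h5 : (c ^ 2 - algebraMap K Ω d₂) * (vK f ⬝ᵥ v) = 0 := by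
    linear_combination -h4
  exact (mul_eq_zero.1 h5).resolve_left (sub_ne_zero.2 (h₂ c))

theorem dot_pJ (J : Matrix I8 I8 K) (f : Fin 6 → K) (x : I8 → Ω) :
    vK f ⬝ᵥ pJ J x = vK ((Sum.elim 0 f : I8 → K) ᵥ* J) ⬝ᵥ x := by
  have h1 : vK f ⬝ᵥ pJ J x = vK (Sum.elim 0 f : I8 → K) ⬝ᵥ (mK J *ᵥ x) := by
    simp only [dotProduct, Fintype.sum_sum_type, vK, Sum.elim_inl, Sum.elim_inr, Pi.zero_apply,
      map_zero, zero_mul, Finset.sum_const_zero, zero_add, pJ, pU]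
  rw [h1, vK_dot_mK]

/-- A functional over `K` which kills the orbit of `w` is zero. -/
theorem orbit_zero [CharZero K] (h₁ : NSq Ω d₁) (hnd : ND S₁ (pU w)) (hw : pL w ≠ 0)
    {h : I8 → K} (h3 : ∀ α β : Ω, α ≠ 0 ∨ β ≠ 0 → vK h ⬝ᵥ tor d₁ S₁ α β w = 0) : h = 0 := by
  have : CharZero Ω := charZero_of_injective_algebraMap (algebraMap K Ω).injective
  set D := algebraMap K Ω d₁ with hD
  have hD0 : D ≠ 0 := h₁.ne
  -- values
  set A := vK h ⬝ᵥ (Sum.elim (pL w) 0 : I8 → Ω) with hA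
  set A' := vK h ⬝ᵥ (Sum.elim (mK (rt d₁) *ᵥ pL w) 0 : I8 → Ω) with hA'
  set B := vK h ⬝ᵥ (Sum.elim 0 (pU w) : I8 → Ω) with hB
  set B' := vK h ⬝ᵥ (Sum.elim 0 (mK S₁ *ᵥ pU w) : I8 → Ω) with hB'
  have h4 : ∀ α β : Ω, α ≠ 0 ∨ β ≠ 0 → (α ^ 3 + 3 * D * α * β ^ 2) * A +
      (3 * α ^ 2 * β + D * β ^ 3) * A' + (α ^ 2 - D * β ^ 2) * (α * B + β * B') = 0 := by
    intro α β hab
    have h5 := h3 α β hab
    rw [tor_sum4, dotProduct_add, dotProduct_add, dotProduct_smul, dotProduct_smul,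
      dotProduct_smul, dotProduct_add, dotProduct_smul, dotProduct_smul] at h5
    simpa only [smul_eq_mul] using h5
  have e1 := h4 1 0 (Or.inl one_ne_zero)
  have e2 := h4 0 1 (Or.inr one_ne_zero)
  have e3 := h4 1 1 (Or.inl one_ne_zero)
  have e4 := h4 1 (-1) (Or.inl one_ne_zero)
  have hAB : B = -A := by linear_combination e1
  have hAB' : B' = A' := by
    have h5 : D * (B' - A') = 0 := by linear_combination -e2
    have h6 := (mul_eq_zero.1 h5).resolve_left hD0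
    linear_combination h6
  have hA0 : A = 0 := by
    have h5 : (8 * D) * A = 0 := by
      rw [hAB, hAB'] at e3 e4
      linear_combination e3 + e4
    exact (mul_eq_zero.1 h5).resolve_left (mul_ne_zero (by norm_num) hD0)
  have hA'0 : A' = 0 := by
    have h5 : (8 : Ω) * A' = 0 := by
      rw [hAB, hAB'] at e3 e4
      linear_combination e3 - e4
    exact (mul_eq_zero.1 h5).resolve_left (by norm_num)
  have hB0 : B = 0 := by rw [hAB, hA0, neg_zero]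
  have hB'0 : B' = 0 := by rw [hAB', hA'0]
  -- the component of `h` on `U₁` is zero
  have hU : (fun i => h (Sum.inr i)) = 0 := by
    refine hnd _ ?_ ?_
    · rw [← hB0, hB]
      simp only [dotProduct, Fintype.sum_sum_type, vK, Sum.elim_inl, Sum.elim_inr, Pi.zero_apply,
        mul_zero, Finset.sum_const_zero, zero_add]
    · rw [← hB'0, hB']
      simp only [dotProduct, Fintype.sum_sum_type, vK, Sum.elim_inl, Sum.elim_inr, Pi.zero_apply,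
        mul_zero, Finset.sum_const_zero, zero_add]
  -- the component of `h` on `L₁` is zero
  have hx1 : algebraMap K Ω (h (Sum.inl 0)) * pL w 0 + algebraMap K Ω (h (Sum.inl 1)) * pL w 1 =
      0 := by
    rw [← hA0, hA]
    simp [dotProduct, Fintype.sum_sum_type, vK, Fin.sum_univ_two]
  have hx2 : algebraMap K Ω (h (Sum.inl 0)) * (D * pL w 1) +
      algebraMap K Ω (h (Sum.inl 1)) * pL w 0 = 0 := by
    rw [← hA'0, hA']
    simp [dotProduct, Fintype.sum_sum_type, vK, Fin.sum_univ_two, mK, rt, hD]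
  have hL : h (Sum.inl 0) = 0 ∧ h (Sum.inl 1) = 0 := by
    by_contra hc
    apply hw
    have hne : algebraMap K Ω (h (Sum.inl 1)) ≠ 0 ∨ algebraMap K Ω (h (Sum.inl 0)) ≠ 0 := by
      by_contra hc'
      push Not at hc'
      exact hc ⟨(map_eq_zero _).1 hc'.2, (map_eq_zero _).1 hc'.1⟩
    obtain ⟨h5, h6⟩ := h₁.two_zero (p := pL w 0) (q := pL w 1 * D) hne (by
      linear_combination hx2) (by linear_combination D * hx1)
    have h7 : pL w 1 = 0 := (mul_eq_zero.1 h6).resolve_right hD0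
    funext i
    fin_cases i
    · exact h5
    · exact h7
  funext i
  rcases i with i | i
  · fin_cases i
    · exact hL.1
    · exact hL.2
  · exact congrFun hU i

omit [Algebra K Ω] [Field K] in
/-- Two nonzero polynomial functions on a linear subspace have a common non-zero point. -/
theorem exists_common [Infinite Ω] {P Q : MvPolynomial (Fin 6) Ω} {m : Fin 2 → Fin 6 → Ω}
    {y₁ y₂ : Fin 6 → Ω} (hy₁ : ∀ j, y₁ ⬝ᵥ m j = 0) (hy₂ : ∀ j, y₂ ⬝ᵥ m j = 0)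
    (hP : MvPolynomial.eval y₁ P ≠ 0) (hQ : MvPolynomial.eval y₂ Q ≠ 0) :
    ∃ y : Fin 6 → Ω, (∀ j, y ⬝ᵥ m j = 0) ∧ MvPolynomial.eval y (P * Q) ≠ 0 := by
  set l : Fin 6 → Polynomial Ω := fun i =>
    Polynomial.C (y₁ i) + Polynomial.X * Polynomial.C (y₂ i - y₁ i) with hl
  have h1 : ∀ (R : MvPolynomial (Fin 6) Ω) (t : Ω),
      (MvPolynomial.aeval l R).eval t = MvPolynomial.eval (y₁ + t • (y₂ - y₁)) R := by
    intro R t
    have h2 : (Polynomial.evalRingHom t).comp (MvPolynomial.aeval (R := Ω) l).toRingHom =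
        MvPolynomial.eval (y₁ + t • (y₂ - y₁)) := by
      refine MvPolynomial.ringHom_ext (fun a => ?_) fun i => ?_
      · simp [Polynomial.algebraMap_eq]
      · simp [hl]
    exact RingHom.congr_fun h2 R
  have hP' : MvPolynomial.aeval l P ≠ 0 := by
    intro h2
    apply hP
    have h3 := h1 P 0
    rw [h2, Polynomial.eval_zero, zero_smul, add_zero] at h3
    exact h3.symm
  have hQ' : MvPolynomial.aeval l Q ≠ 0 := by
    intro h2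
    apply hQ
    have h3 := h1 Q 1
    rw [h2, Polynomial.eval_zero, one_smul, add_sub_cancel] at h3
    exact h3.symm
  obtain ⟨t, ht⟩ : ∃ t : Ω, (MvPolynomial.aeval l P * MvPolynomial.aeval l Q).eval t ≠ 0 := by
    by_contra hcon
    push Not at hcon
    exact mul_ne_zero hP' hQ' (Polynomial.funext fun t => by rw [hcon, Polynomial.eval_zero])
  refine ⟨y₁ + t • (y₂ - y₁), fun j => ?_, ?_⟩
  · rw [add_dotProduct, smul_dotProduct, sub_dotProduct, hy₁, hy₂, sub_zero, smul_zero, add_zero]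
  · rw [map_mul, ← h1, ← h1, ← Polynomial.eval_mul]
    exact ht

/-- Two linear forms without a relation are surjective. -/
theorem exists_pq (hJ : IsUnit J.det) (hS₁ : S₁ * S₁ = d₁ • 1) (h₁ : NSq Ω d₁)
    (hnd : ND S₁ (pU w)) (α β : Ω) :
    ∃ y : Fin 6 → Ω, (∀ j, y ⬝ᵥ vK (mJ J j) = 0) ∧
      y ⬝ᵥ pJ J (Sum.elim 0 (mK S₁ *ᵥ pU w)) = α ∧ -(y ⬝ᵥ pJ J (Sum.elim 0 (pU w))) = β := by
  have hstar : ∀ a b : Ω, a ≠ 0 ∨ b ≠ 0 →
      ∃ y : Fin 6 → Ω, (∀ j, y ⬝ᵥ vK (mJ J j) = 0) ∧ a * (y ⬝ᵥ pJ J (Sum.elim 0 (pU w))) +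
        b * (y ⬝ᵥ pJ J (Sum.elim 0 (mK S₁ *ᵥ pU w))) ≠ 0 := by
    intro a b h
    obtain ⟨y, hy, hy'⟩ := exists_ne hJ hS₁ h₁ hnd h
    refine ⟨y, hy, ?_⟩
    rw [sm_comb, dotProduct_add, dotProduct_smul, dotProduct_smul] at hy'
    exact hy'
  set P := pJ J (Sum.elim 0 (pU w)) with hP
  set Q := pJ J (Sum.elim 0 (mK S₁ *ᵥ pU w)) with hQ
  obtain ⟨y₁, hy₁, h1⟩ := hstar 1 0 (Or.inl one_ne_zero)
  rw [one_mul, zero_mul, add_zero] at h1
  obtain ⟨y₂, hy₂, h2⟩ := hstar (y₁ ⬝ᵥ Q) (-(y₁ ⬝ᵥ P)) (Or.inr (neg_ne_zero.2 h1))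
  set D := (y₁ ⬝ᵥ Q) * (y₂ ⬝ᵥ P) + -(y₁ ⬝ᵥ P) * (y₂ ⬝ᵥ Q) with hD
  -- `a y₁ + b y₂`
  refine ⟨(((y₂ ⬝ᵥ P) * α + (y₂ ⬝ᵥ Q) * β) / D) • y₁ +
    (-((y₁ ⬝ᵥ P) * α + (y₁ ⬝ᵥ Q) * β) / D) • y₂, fun j => ?_, ?_, ?_⟩
  · rw [add_dotProduct, smul_dotProduct, smul_dotProduct, hy₁, hy₂, smul_zero, smul_zero,
      add_zero]
  · rw [add_dotProduct, smul_dotProduct, smul_dotProduct, smul_eq_mul, smul_eq_mul]
    field_simp
    rw [hD]
    ring
  · rw [add_dotProduct, smul_dotProduct, smul_dotProduct, smul_eq_mul, smul_eq_mul]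
    field_simp
    rw [hD]
    ring

/-- Existence of the functional `y`. -/
theorem exists_y [CharZero K] (hJ : IsUnit J.det) (hS₁ : S₁ * S₁ = d₁ • 1) (h₁ : NSq Ω d₁)
    (hS₂ : S₂ * S₂ = d₂ • 1) (h₂ : NSq Ω d₂) (hnd : ND S₁ (pU w)) (hw : pL w ≠ 0) :
    ∃ y : Fin 6 → K, (∀ j, y ⬝ᵥ mJ J j = 0) ∧
      vK y ⬝ᵥ (mK S₂ *ᵥ pJ J (tor d₁ S₁ (vK y ⬝ᵥ pJ J (Sum.elim 0 (mK S₁ *ᵥ pU w)))
        (-(vK y ⬝ᵥ pJ J (Sum.elim 0 (pU w)))) w)) ≠ 0 ∧
      pL (mK J *ᵥ tor d₁ S₁ (vK y ⬝ᵥ pJ J (Sum.elim 0 (mK S₁ *ᵥ pU w)))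
        (-(vK y ⬝ᵥ pJ J (Sum.elim 0 (pU w)))) w) ≠ 0 := by
  have : CharZero Ω := charZero_of_injective_algebraMap (algebraMap K Ω).injective
  set D := algebraMap K Ω d₁ with hD
  set q := lf (pJ J (Sum.elim 0 (mK S₁ *ᵥ pU w))) with hq
  set p := -lf (pJ J (Sum.elim 0 (pU w))) with hp
  set P : MvPolynomial (Fin 6) Ω :=
    (q ^ 3 + 3 * MvPolynomial.C D * q * p ^ 2) * lf (mK S₂ *ᵥ pJ J (Sum.elim (pL w) 0)) +
    (3 * q ^ 2 * p + MvPolynomial.C D * p ^ 3) *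
      lf (mK S₂ *ᵥ pJ J (Sum.elim (mK (rt d₁) *ᵥ pL w) 0)) +
    (q ^ 2 - MvPolynomial.C D * p ^ 2) * (q * lf (mK S₂ *ᵥ pJ J (Sum.elim 0 (pU w))) +
      p * lf (mK S₂ *ᵥ pJ J (Sum.elim 0 (mK S₁ *ᵥ pU w)))) with hPd
  have hev : ∀ y : Fin 6 → Ω, MvPolynomial.eval y P =
      y ⬝ᵥ (mK S₂ *ᵥ pJ J (tor d₁ S₁ (y ⬝ᵥ pJ J (Sum.elim 0 (mK S₁ *ᵥ pU w)))
      (-(y ⬝ᵥ pJ J (Sum.elim 0 (pU w)))) w)) := by
    intro y
    rw [pJ_sum4, mulVec_add, mulVec_add, mulVec_smul, mulVec_smul, mulVec_smul, mulVec_add,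
      mulVec_smul, mulVec_smul, dotProduct_add, dotProduct_add, dotProduct_smul,
      dotProduct_smul, dotProduct_smul, dotProduct_add, dotProduct_smul, dotProduct_smul, hPd,
      hq, hp]
    simp only [map_add, map_mul, map_sub, map_pow, map_neg, MvPolynomial.eval_C, eval_lf,
      smul_eq_mul, map_ofNat, hD]
  -- the row `0` of `J`
  set h : I8 → K := fun i => J (Sum.inl 0) i with hh
  set R : MvPolynomial (Fin 6) Ω :=
    (q ^ 3 + 3 * MvPolynomial.C D * q * p ^ 2) *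
      MvPolynomial.C (vK h ⬝ᵥ (Sum.elim (pL w) 0 : I8 → Ω)) +
    (3 * q ^ 2 * p + MvPolynomial.C D * p ^ 3) *
      MvPolynomial.C (vK h ⬝ᵥ (Sum.elim (mK (rt d₁) *ᵥ pL w) 0 : I8 → Ω)) +
    (q ^ 2 - MvPolynomial.C D * p ^ 2) *
      (q * MvPolynomial.C (vK h ⬝ᵥ (Sum.elim 0 (pU w) : I8 → Ω)) +
      p * MvPolynomial.C (vK h ⬝ᵥ (Sum.elim 0 (mK S₁ *ᵥ pU w) : I8 → Ω))) with hRd
  have hevR : ∀ y : Fin 6 → Ω, MvPolynomial.eval y R =
      vK h ⬝ᵥ tor d₁ S₁ (y ⬝ᵥ pJ J (Sum.elim 0 (mK S₁ *ᵥ pU w)))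
      (-(y ⬝ᵥ pJ J (Sum.elim 0 (pU w)))) w := by
    intro y
    rw [tor_sum4, dotProduct_add, dotProduct_add, dotProduct_smul, dotProduct_smul,
      dotProduct_smul, dotProduct_add, dotProduct_smul, dotProduct_smul, hRd, hq, hp]
    simp only [map_add, map_mul, map_sub, map_pow, map_neg, MvPolynomial.eval_C, eval_lf,
      smul_eq_mul, map_ofNat, hD]
  -- `R` is not zero
  obtain ⟨y₂, hy₂, hR⟩ : ∃ y : Fin 6 → Ω, (∀ j, y ⬝ᵥ vK (mJ J j) = 0) ∧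
      MvPolynomial.eval y R ≠ 0 := by
    by_contra hcon
    push Not at hcon
    have h5 : h = 0 := by
      refine orbit_zero h₁ hnd hw fun α β _ => ?_
      obtain ⟨y, hy, hyα, hyβ⟩ := exists_pq hJ hS₁ h₁ hnd α β
      have h6 := hcon y hy
      rw [hevR, hyα, hyβ] at h6
      exact h6
    have h6 : J.det = 0 := Matrix.det_eq_zero_of_row_eq_zero (Sum.inl 0) fun i => congrFun h5 i
    rw [h6] at hJ
    exact not_isUnit_zero hJ
  -- `P` is not zero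
  obtain ⟨y₁, hy₁, hP1⟩ : ∃ y : Fin 6 → Ω, (∀ j, y ⬝ᵥ vK (mJ J j) = 0) ∧
      MvPolynomial.eval y P ≠ 0 := by
    by_contra hcon
    push Not at hcon
    have hP : ∀ y : Fin 6 → Ω, (∀ j, y ⬝ᵥ vK (mJ J j) = 0) →
        y ⬝ᵥ (mK S₂ *ᵥ pJ J (tor d₁ S₁ (y ⬝ᵥ pJ J (Sum.elim 0 (mK S₁ *ᵥ pU w)))
          (-(y ⬝ᵥ pJ J (Sum.elim 0 (pU w)))) w)) = 0 := by
      intro y hy
      rw [← hev]
      exact hcon y hy
    obtain ⟨f, hf0, hf1, hf2⟩ := exists_fun (mJ J) S₂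
    have hh0 : ((Sum.elim 0 f : I8 → K) ᵥ* J) = 0 := by
      refine orbit_zero h₁ hnd hw fun α β hab => ?_
      rw [← dot_pJ]
      exact dot_zero hJ hS₁ h₁ hS₂ h₂ hnd hP hf1 hf2 hab
    have hf3 : (Sum.elim 0 f : I8 → K) = 0 := by
      have h5 : ((Sum.elim 0 f : I8 → K) ᵥ* J) ᵥ* J⁻¹ = (Sum.elim 0 f : I8 → K) := by
        rw [vecMul_vecMul, mul_nonsing_inv _ hJ, vecMul_one]
      rw [← h5, hh0, zero_vecMul]
    exact hf0 (funext fun i => congrFun hf3 (Sum.inr i))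
  obtain ⟨y, hy, hPR⟩ := exists_common hy₁ hy₂ hP1 hR
  by_contra hcon
  push Not at hcon
  apply hPR
  refine poly_zero (K := K) (m := mJ J) (fun z hz => ?_) hy
  rw [map_mul, hev, hevR]
  by_cases h7 : vK z ⬝ᵥ (mK S₂ *ᵥ pJ J (tor d₁ S₁ (vK z ⬝ᵥ pJ J (Sum.elim 0 (mK S₁ *ᵥ pU w)))
        (-(vK z ⬝ᵥ pJ J (Sum.elim 0 (pU w)))) w)) = 0
  · rw [h7, zero_mul]
  · have h8 := congrFun (hcon z hz h7) 0
    rw [mul_eq_zero]
    right
    exact h8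

end Pool.Agent.GSH
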